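import Pool.Agent.N124.CU.QP

set_option autoImplicit false

/-!
# The four positions of the vertex `b`

`a = (1, δ)`, `d = (0, 0)`, `b₁ = (1 + w, δ + α₁ / w)`, `c = (p, γ / p)`, `b = (1 + ω, δ + α / ω)`.
-/

namespace Pool.Agent.N124.CU

open Filter Topology ComplexConjugate

/-- the parameters: `|ad|² = de`, `|ab₁|² = a1`, `|ab|² = al`, `|dc|² = ga`, `|bc|² = be`,
`|b₁c|² = bp` -/
structure Par where
  de : ℂ
  a1 : ℂ
  al : ℂ
  ga : ℂ
  be : ℂ
  bp : ℂ

namespace Par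

variable (P : Par)

/-- second coordinate of `b₁` -/
noncomputable def eta (w : ℂ) : ℂ := P.de + P.a1 / w

noncomputable def qb (w : ℂ) : ℂ := -((1 + w) * P.eta w + P.ga - P.bp)

noncomputable def qc (w : ℂ) : ℂ := (1 + w) * P.ga

def ia (p : ℂ) : ℂ := P.de * p - P.ga

def ib (p : ℂ) : ℂ := (1 - p) * (P.de * p - P.ga) + (P.al - P.be) * p

def ic (p : ℂ) : ℂ := P.al * p * (1 - p)

/-- product over the two positions of `b` for the given `c` -/
noncomputable def Inner (p : ℂ) (f : ℂ → ℂ → ℂ) : ℂ :=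
  QP (P.ia p) (P.ib p) (P.ic p) (fun ω => f (1 + ω) (P.de + P.al / ω))

/-- product over the four positions of `b` for the given `b₁` -/
noncomputable def Arm (w : ℂ) (f : ℂ → ℂ → ℂ) : ℂ :=
  QP (P.eta w) (P.qb w) (P.qc w) (fun p => P.Inner p f)

/-- `p` is a position of `c` -/
def RQ (w p : ℂ) : Prop := P.eta w * p ^ 2 + P.qb w * p + P.qc w = 0

/-- `ω` is a position of `b` -/
def RI (p ω : ℂ) : Prop := P.ia p * ω ^ 2 + P.ib p * ω + P.ic p = 0

theorem RQ_iff {w p : ℂ} (hp : p ≠ 0) :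
    P.RQ w p ↔ (p - (1 + w)) * (P.ga / p - P.eta w) = P.bp := by
  unfold RQ qb qc
  constructor
  · intro h
    field_simp
    linear_combination (-1) * h
  · intro h
    field_simp at h
    linear_combination (-1) * h

theorem RI_iff {p ω : ℂ} (hp : p ≠ 0) (hω : ω ≠ 0) :
    P.RI p ω ↔ (1 + ω - p) * (P.de + P.al / ω - P.ga / p) = P.be := by
  unfold RI ia ib ic
  constructor
  · intro h
    field_simp
    linear_combination h
  · intro h
    field_simp at h
    linear_combination h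

/-- a position of `c` determines the position of `b₁` up to two choices -/
theorem RQ_w {w p : ℂ} (hw : w ≠ 0) (h : P.RQ w p) :
    (P.de * p - P.ga) * w ^ 2 + ((1 - p) * (P.de * p - P.ga) + (P.a1 - P.bp) * p) * w +
      P.a1 * p * (1 - p) = 0 := by
  unfold RQ qb qc eta at h
  field_simp at h
  linear_combination (-1) * h

/-- nondegenerate position of `b₁` -/
structure Reg (w : ℂ) : Prop where
  w0 : w ≠ 0
  w1 : 1 + w ≠ 0
  eta0 : P.eta w ≠ 0
  pa : ∀ p, P.RQ w p → P.ia p ≠ 0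
  p1 : ∀ p, P.RQ w p → p ≠ 1
  al0 : P.al ≠ 0
  ga0 : P.ga ≠ 0

variable {P}

theorem Reg.p0 {w p : ℂ} (h : P.Reg w) (hp : P.RQ w p) : p ≠ 0 := by
  rintro rfl
  unfold RQ qc at hp
  have : (1 + w) * P.ga = 0 := by linear_combination hp
  exact mul_ne_zero h.w1 h.ga0 this

theorem Reg.ic0 {w p : ℂ} (h : P.Reg w) (hp : P.RQ w p) : P.ic p ≠ 0 := by
  unfold ic
  exact mul_ne_zero (mul_ne_zero h.al0 (h.p0 hp)) (sub_ne_zero.mpr (h.p1 p hp).symm)

theorem Reg.ω0 {w p ω : ℂ} (h : P.Reg w) (hp : P.RQ w p) (hω : P.RI p ω) : ω ≠ 0 := by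
  rintro rfl
  unfold RI at hω
  exact h.ic0 hp (by linear_combination hω)

theorem reg_of {w : ℂ} (w0 : w ≠ 0) (w1 : w ≠ -1) (wa : P.de * w ≠ -P.a1)
    (ws : (P.de - P.ga) * w ≠ P.bp - P.a1) (wt : (P.bp - P.a1) * P.de * w ≠ P.a1 * (P.de - P.ga))
    (al0 : P.al ≠ 0) (ga0 : P.ga ≠ 0) (_de0 : P.de ≠ 0) : P.Reg w := by
  refine ⟨w0, fun h => w1 (by linear_combination h), ?_, ?_, ?_, al0, ga0⟩
  · intro h
    unfold eta at h
    field_simp at h
    exact wa (by linear_combination h)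
  · intro p hp h
    have h1 := P.RQ_w w0 hp
    unfold ia at h
    rw [h] at h1
    have hp0 : p ≠ 0 := by
      rintro rfl
      exact ga0 (by linear_combination (-1) * h)
    have h2 : p * ((P.a1 - P.bp) * w + P.a1 * (1 - p)) = 0 := by linear_combination h1
    rcases mul_eq_zero.mp h2 with h3 | h3
    · exact hp0 h3
    · apply wt
      linear_combination (-P.de) * h3 - P.a1 * h
  · intro p hp h
    have h1 := P.RQ_w w0 hp
    rw [h] at h1
    have h2 : w * ((P.de - P.ga) * w + (P.a1 - P.bp)) = 0 := by linear_combination h1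
    rcases mul_eq_zero.mp h2 with h3 | h3
    · exact w0 h3
    · exact ws (by linear_combination h3)

theorem Inner_congr {p : ℂ} (ha : P.ia p ≠ 0) {f g : ℂ → ℂ → ℂ}
    (h : ∀ ω, P.RI p ω → f (1 + ω) (P.de + P.al / ω) = g (1 + ω) (P.de + P.al / ω)) :
    P.Inner p f = P.Inner p g := QP_congr ha h

theorem Inner_mul_left (p k : ℂ) (f : ℂ → ℂ → ℂ) :
    P.Inner p (fun u v => k * f u v) = k ^ 2 * P.Inner p f := QP_mul_left _ _ _ _ _

theorem Inner_mul (p : ℂ) (f g : ℂ → ℂ → ℂ) :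
    P.Inner p (fun u v => f u v * g u v) = P.Inner p f * P.Inner p g := QP_mul _ _ _ _ _

theorem Arm_mul_left (w k : ℂ) (f : ℂ → ℂ → ℂ) :
    P.Arm w (fun u v => k * f u v) = k ^ 4 * P.Arm w f := by
  unfold Arm
  simp only [Inner_mul_left]
  rw [QP_mul_left]
  ring

theorem Inner_ne_zero {p : ℂ} (ha : P.ia p ≠ 0) {f : ℂ → ℂ → ℂ}
    (h : ∀ ω, P.RI p ω → f (1 + ω) (P.de + P.al / ω) ≠ 0) : P.Inner p f ≠ 0 := QP_ne_zero ha h

theorem Arm_ne_zero {w : ℂ} (hw : P.Reg w) {f : ℂ → ℂ → ℂ}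
    (h : ∀ p ω, P.RQ w p → P.RI p ω → f (1 + ω) (P.de + P.al / ω) ≠ 0) : P.Arm w f ≠ 0 :=
  QP_ne_zero hw.eta0 (fun p hp => Inner_ne_zero (hw.pa p hp) (fun ω hω => h p ω hp hω))

theorem Arm_eq_zero {w : ℂ} (hw : P.Reg w) {f : ℂ → ℂ → ℂ} (h : P.Arm w f = 0) :
    ∃ p ω, P.RQ w p ∧ P.RI p ω ∧ f (1 + ω) (P.de + P.al / ω) = 0 := by
  by_contra hcon
  push Not at hcon
  exact Arm_ne_zero hw hcon h

/-- the four positions -/
theorem Inner_roots {p r s : ℂ} (ha : P.ia p ≠ 0) (hb : P.ib p = -(P.ia p * (r + s)))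
    (hc : P.ic p = P.ia p * r * s) (f : ℂ → ℂ → ℂ) :
    P.Inner p f = f (1 + r) (P.de + P.al / r) * f (1 + s) (P.de + P.al / s) :=
  QP_roots ha hb hc _

/-! ### Complex conjugation -/

/-- real parameters -/
structure Re (P : Par) : Prop where
  de : conj P.de = P.de
  a1 : conj P.a1 = P.a1
  al : conj P.al = P.al
  ga : conj P.ga = P.ga
  be : conj P.be = P.be
  bp : conj P.bp = P.bp

theorem Inner_conj (hP : P.Re) (p : ℂ) (f : ℂ → ℂ → ℂ) :
    conj (P.Inner p f) = P.Inner (conj p) (fun u v => conj (f (conj u) (conj v))) := by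
  unfold Inner
  rw [QP_conj]
  have h1 : conj (P.ia p) = P.ia (conj p) := by simp [ia, hP.de, hP.ga]
  have h2 : conj (P.ib p) = P.ib (conj p) := by simp [ib, hP.de, hP.ga, hP.al, hP.be]
  have h3 : conj (P.ic p) = P.ic (conj p) := by simp [ic, hP.al]
  rw [h1, h2, h3]
  congr 1
  funext ω
  simp only [map_add, map_one, map_div₀, hP.de, hP.al]

theorem Arm_conj (hP : P.Re) (w : ℂ) (f : ℂ → ℂ → ℂ) :
    conj (P.Arm w f) = P.Arm (conj w) (fun u v => conj (f (conj u) (conj v))) := by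
  unfold Arm
  rw [QP_conj]
  have h1 : conj (P.eta w) = P.eta (conj w) := by simp [eta, hP.de, hP.a1]
  have h2 : conj (P.qb w) = P.qb (conj w) := by simp [qb, h1, hP.ga, hP.bp]
  have h3 : conj (P.qc w) = P.qc (conj w) := by simp [qc, hP.ga]
  rw [h1, h2, h3]
  congr 1
  funext p
  rw [Inner_conj hP, Complex.conj_conj]

/-! ### The involution (reflection) -/

theorem Inner_inv {p : ℂ} (hp : p ≠ 0) (hp1 : p ≠ 1) (ha : P.ia p ≠ 0) (de0 : P.de ≠ 0)
    (al0 : P.al ≠ 0) (ga0 : P.ga ≠ 0) (f : ℂ → ℂ → ℂ) :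
    P.Inner (P.ga / (P.de * p)) f = P.Inner p (fun u v => f (v / P.de) (P.de * u)) := by
  obtain ⟨r, s, hb, hc⟩ := exists_roots (P.ib p) (P.ic p) ha
  have hic : P.ic p ≠ 0 := by
    unfold ic
    exact mul_ne_zero (mul_ne_zero al0 hp) (sub_ne_zero.mpr hp1.symm)
  have hr : r ≠ 0 := by rintro rfl; rw [hc] at hic; simp at hic
  have hs : s ≠ 0 := by rintro rfl; rw [hc] at hic; simp at hic
  have e1 : P.ia (P.ga / (P.de * p)) = P.ga * (1 - p) / p := by
    unfold ia; field_simp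
  have h1p : (1 : ℂ) - p ≠ 0 := sub_ne_zero.mpr hp1.symm
  rw [Inner_roots ha hb hc, Inner_roots (r := P.al / (P.de * r)) (s := P.al / (P.de * s))]
  · congr 2
    · field_simp
    · field_simp
    · field_simp
    · field_simp
  · rw [e1]
    exact div_ne_zero (mul_ne_zero ga0 h1p) hp
  · -- sum of the roots
    have e2 : P.ib (P.ga / (P.de * p)) = P.ga / (P.de * p ^ 2) * P.ib p := by
      unfold ib; field_simp
    rw [e1, e2, hb]
    have hc' : P.al * p * (1 - p) = P.ia p * r * s := hc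
    field_simp
    linear_combination (r + s) * hc'
  · have e3 : P.ic (P.ga / (P.de * p)) = P.al * P.ga / (P.de ^ 2 * p ^ 2) * P.ia p := by
      unfold ic ia; field_simp
    rw [e1, e3]
    have hc' : P.al * p * (1 - p) = P.ia p * r * s := hc
    field_simp
    linear_combination (-1) * hc'

theorem Arm_inv {w : ℂ} (hw : P.Reg w) (de0 : P.de ≠ 0) (a10 : P.a1 ≠ 0) (f : ℂ → ℂ → ℂ) :
    P.Arm (P.a1 / (P.de * w)) f = P.Arm w (fun u v => f (v / P.de) (P.de * u)) := by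
  obtain ⟨r, s, hb, hc⟩ := exists_roots (P.qb w) (P.qc w) hw.eta0
  have hr : P.RQ w r := root_left hb hc
  have hs : P.RQ w s := root_right hb hc
  have r0 := hw.p0 hr
  have s0 := hw.p0 hs
  have w0 := hw.w0
  have ga0 := hw.ga0
  have e1 : P.eta (P.a1 / (P.de * w)) = P.de * (1 + w) := by unfold eta; field_simp
  have e1' : 1 + P.a1 / (P.de * w) = P.eta w / P.de := by unfold eta; field_simp
  have e2 : P.qb (P.a1 / (P.de * w)) = P.qb w := by
    unfold qb
    rw [e1, e1']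
    field_simp
  have e3 : P.qc (P.a1 / (P.de * w)) = P.eta w * P.ga / P.de := by
    unfold qc
    rw [e1']
    ring
  have hc' : (1 + w) * P.ga = P.eta w * r * s := hc
  unfold Arm
  rw [QP_roots hw.eta0 hb hc, QP_roots (r := P.ga / (P.de * r)) (s := P.ga / (P.de * s))]
  · rw [Inner_inv r0 (hw.p1 r hr) (hw.pa r hr) de0 hw.al0 hw.ga0,
      Inner_inv s0 (hw.p1 s hs) (hw.pa s hs) de0 hw.al0 hw.ga0]
  · rw [e1]
    exact mul_ne_zero de0 hw.w1
  · rw [e1, e2, hb]
    field_simp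
    linear_combination (r + s) * hc'
  · rw [e1, e3]
    field_simp
    linear_combination (-1) * hc'

/-! ### Continuity -/

theorem Inner_cont {X : Type*} [TopologicalSpace X] {p : X → ℂ} {f : X → ℂ → ℂ → ℂ} {x₀ : X}
    (hp : ContinuousAt p x₀) (ha : P.ia (p x₀) ≠ 0) (hc : P.ic (p x₀) ≠ 0)
    (hf : ∀ u v, ContinuousAt (fun y : X × ℂ × ℂ => f y.1 y.2.1 y.2.2) (x₀, u, v)) :
    ContinuousAt (fun x => P.Inner (p x) (f x)) x₀ := by
  unfold Inner
  refine QP_cont (by unfold ia; fun_prop) (by unfold ib; fun_prop) (by unfold ic; fun_prop) ha ?_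
  intro r hr
  have r0 : r ≠ 0 := by
    rintro rfl
    exact hc (by linear_combination hr)
  have m : ContinuousAt (fun y : X × ℂ => (y.1, 1 + y.2, P.de + P.al / y.2)) (x₀, r) := by
    refine continuousAt_fst.prodMk ((continuousAt_const.add continuousAt_snd).prodMk
      (continuousAt_const.add (ContinuousAt.div₀ continuousAt_const continuousAt_snd r0)))
  exact ContinuousAt.comp (f := fun y : X × ℂ => (y.1, 1 + y.2, P.de + P.al / y.2))
    (g := fun y : X × ℂ × ℂ => f y.1 y.2.1 y.2.2) (hf _ _) m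

theorem Inner_cont2 {X : Type*} [TopologicalSpace X] {p : X → ℂ} {f : X → ℂ → ℂ → ℂ} {x₀ : X}
    (hp : ContinuousAt p x₀) (ha : P.ia (p x₀) ≠ 0) (hc : P.ic (p x₀) ≠ 0)
    (hf : ∀ ω, P.RI (p x₀) ω →
      ContinuousAt (fun y : X × ℂ × ℂ => f y.1 y.2.1 y.2.2) (x₀, 1 + ω, P.de + P.al / ω)) :
    ContinuousAt (fun x => P.Inner (p x) (f x)) x₀ := by
  unfold Inner
  refine QP_cont (by unfold ia; fun_prop) (by unfold ib; fun_prop) (by unfold ic; fun_prop) ha ?_
  intro r hr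
  have r0 : r ≠ 0 := by
    rintro rfl
    exact hc (by linear_combination hr)
  have m : ContinuousAt (fun y : X × ℂ => (y.1, 1 + y.2, P.de + P.al / y.2)) (x₀, r) := by
    refine continuousAt_fst.prodMk ((continuousAt_const.add continuousAt_snd).prodMk
      (continuousAt_const.add (ContinuousAt.div₀ continuousAt_const continuousAt_snd r0)))
  exact ContinuousAt.comp (f := fun y : X × ℂ => (y.1, 1 + y.2, P.de + P.al / y.2))
    (g := fun y : X × ℂ × ℂ => f y.1 y.2.1 y.2.2) (hf _ hr) m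

theorem Arm_cont2 {X : Type*} [TopologicalSpace X] {w : X → ℂ} {f : X → ℂ → ℂ → ℂ} {x₀ : X}
    (hw : ContinuousAt w x₀) (hr : P.Reg (w x₀))
    (hf : ∀ p ω, P.RQ (w x₀) p → P.RI p ω →
      ContinuousAt (fun y : X × ℂ × ℂ => f y.1 y.2.1 y.2.2) (x₀, 1 + ω, P.de + P.al / ω)) :
    ContinuousAt (fun x => P.Arm (w x) (f x)) x₀ := by
  unfold Arm
  have w0 := hr.w0
  have he : ContinuousAt (fun x => P.eta (w x)) x₀ := by
    unfold eta
    exact continuousAt_const.add (ContinuousAt.div₀ continuousAt_const hw w0)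
  refine QP_cont he (by unfold qb; fun_prop) (by unfold qc; fun_prop) hr.eta0 ?_
  intro p hp
  refine Inner_cont2 (X := X × ℂ) (p := fun y => y.2) (f := fun y => f y.1) continuousAt_snd
    (hr.pa p hp) (hr.ic0 hp) ?_
  intro ω hω
  have m : ContinuousAt (fun z : (X × ℂ) × ℂ × ℂ => (z.1.1, z.2.1, z.2.2))
      ((x₀, p), 1 + ω, P.de + P.al / ω) := by fun_prop
  exact ContinuousAt.comp (f := fun z : (X × ℂ) × ℂ × ℂ => (z.1.1, z.2.1, z.2.2))
    (g := fun y : X × ℂ × ℂ => f y.1 y.2.1 y.2.2) (hf p ω hp hω) m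

end Par

end Pool.Agent.N124.CU
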