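import Pool.Agent.N124.CU.Stm2

set_option autoImplicit false

/-!
# Project CU: assembly of `S_core`
-/

namespace Pool.Agent.N124.CU

open Filter Topology

theorem eventually_ne_zz (x : Fin 13 → ℝ) (z : ℂ) : ∀ᶠ w in 𝓝[≠] z, ∀ i, w ≠ (zz x i : ℂ) := by
  rw [eventually_all]
  intro i
  by_cases h : (zz x i : ℂ) = z
  · rw [h]
    exact self_mem_nhdsWithin
  · exact mem_nhdsWithin_of_mem_nhds (isOpen_ne.mem_nhds (Ne.symm h))

theorem NN_re (hconj : S_conj) (x : Fin 13 → ℝ) (w : ℝ) : NN x w = ((NN x w).re : ℂ) :=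
  (Complex.conj_eq_iff_re.mp (hconj x w)).symm

/-- the real form of the order -/
theorem ord_real (hconj : S_conj) (x : Fin 13 → ℝ) (z : ℝ) (n : ℕ) (h : Ord x z n) :
    ∃ c : ℝ, c ≠ 0 ∧ Tendsto (fun w : ℝ => (w - z) ^ n * (NN x w).re) (𝓝[≠] z) (𝓝 c) := by
  obtain ⟨c, hc, ht⟩ := h
  have hm : Tendsto (fun w : ℝ => ((w - z : ℝ) : ℂ)) (𝓝[≠] z) (𝓝[≠] 0) := by
    apply tendsto_nhdsWithin_of_tendsto_nhds_of_eventually_within
    · have : ContinuousAt (fun w : ℝ => ((w - z : ℝ) : ℂ)) z := by fun_prop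
      have h2 := this.tendsto
      simp only [sub_self, Complex.ofReal_zero] at h2
      exact h2.mono_left nhdsWithin_le_nhds
    · filter_upwards [self_mem_nhdsWithin] with w hw
      simp only [Set.mem_compl_iff, Set.mem_singleton_iff, Complex.ofReal_eq_zero]
      exact sub_ne_zero.mpr hw
  have h1 := ht.comp hm
  have h2 : Tendsto (fun w : ℝ => (((w - z) ^ n * (NN x w).re : ℝ) : ℂ)) (𝓝[≠] z) (𝓝 c) := by
    refine h1.congr ?_
    intro w
    simp only [Function.comp]
    have e : (z : ℂ) + ((w - z : ℝ) : ℂ) = (w : ℂ) := by push_cast; ring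
    rw [e, NN_re hconj x w]
    push_cast
    simp
  have him : c.im = 0 := by
    have h3 := (Complex.continuous_im.tendsto c).comp h2
    have h4 : Tendsto (fun _ : ℝ => (0 : ℝ)) (𝓝[≠] z) (𝓝 c.im) := by
      refine h3.congr ?_
      intro w
      simp only [Function.comp, Complex.ofReal_im]
    exact tendsto_nhds_unique h4 tendsto_const_nhds |>.symm ▸ rfl
  refine ⟨c.re, ?_, ?_⟩
  · intro h0
    exact hc (Complex.ext h0 him)
  · have h3 := (Complex.continuous_re.tendsto c).comp h2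
    refine h3.congr ?_
    intro w
    simp only [Function.comp, Complex.ofReal_re]

def nz : Fin 7 → ℕ := ![18, 11, 11, 8, 8, 8, 8]

theorem t_fin : S_fin := by
  intro hfield hreal hsign hp0 hp1 hp3 hp2 hnz hcont hconj hinv hsq himg hinj hreg hend hcommon x hx x0 x1
  obtain ⟨K⟩ := hfield x hx
  obtain ⟨x00, x10, w30, w20, h05, h06, inj, neω⟩ := hinj x K
  obtain ⟨reg, r2, r3⟩ := hreg x K
  have e3 : (arm3 x).ws = (w3 x : ℂ) := by simp [arm3, Par.ws, w3]
  have e2 : (arm2 x).ws = (w2 x : ℂ) := by simp [arm2, Par.ws, w2]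
  have regev : ∀ z : ℂ, ∀ᶠ w in 𝓝[≠] z, (arm3 x).Reg w ∧ (arm2 x).Reg w := fun z =>
    (eventually_ne_zz x z).mono (fun w hw => reg w hw)
  have o0 := hp0 x K
  have o1 := hp1 x K
  have o3 := hp3 x K r2
  have o5 := hp2 x K r3
  rw [e3] at o3
  rw [e2] at o5
  have w30' : (w3 x : ℂ) ≠ 0 := by exact_mod_cast w30
  have w20' : (w2 x : ℂ) ≠ 0 := by exact_mod_cast w20
  have o2 := himg hinv x (-1) 11 x00 x10 (by norm_num) (regev _) o1
  have o4 := himg hinv x (w3 x) 8 x00 x10 w30' (regev _) o3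
  have o6 := himg hinv x (w2 x) 8 x00 x10 w20' (regev _) o5
  have ords : ∀ i, Ord x (zz x i) (nz i) := by
    intro i
    fin_cases i
    · simpa [zz, nz] using o0
    · simpa [zz, nz] using o1
    · have : (x 1 : ℂ) / (x 0 * (-1)) = ((-x 1 / x 0 : ℝ) : ℂ) := by
        push_cast
        rw [mul_neg_one, div_neg, neg_div]
      rw [this] at o2
      exact o2
    · exact o3
    · have : (x 1 : ℂ) / (x 0 * w3 x) = ((x 1 / (x 0 * w3 x) : ℝ) : ℂ) := by push_cast; rfl
      rw [this] at o4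
      exact o4
    · exact o5
    · have : (x 1 : ℂ) / (x 0 * w2 x) = ((x 1 / (x 0 * w2 x) : ℝ) : ℂ) := by push_cast; rfl
      rw [this] at o6
      exact o6
  by_contra hcon
  set ω : ℝ := Real.sqrt (x 1 / x 0) with hω
  have ω0 : 0 < ω := Real.sqrt_pos.mpr (div_pos x1 x0)
  have ω2 : ω ^ 2 = x 1 / x 0 := Real.sq_sqrt (div_pos x1 x0).le
  have ω2' : x 0 * ω ^ 2 = x 1 := by rw [ω2]; field_simp
  have nzω : ∀ w : ℝ, x 0 * w ^ 2 = x 1 → NN x w ≠ 0 ∧ (arm3 x).Reg w ∧ (arm2 x).Reg w := by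
    intro w hw
    have hr : (arm3 x).Reg w ∧ (arm2 x).Reg w := by
      apply reg
      intro i h
      have h' : w = zz x i := by exact_mod_cast h
      exact neω i (h' ▸ hw)
    refine ⟨hnz x K w ?_ hr.1 hr.2, hr⟩
    refine K.root SZ (x 0) 0 (-x 1) w (K.mem _ _ (by simp [SZ])) (zero_mem _)
      (neg_mem (K.mem _ _ (by simp [SZ]))) (Or.inl (by exact_mod_cast x00)) ?_
    have : (x 0 : ℂ) * (w : ℂ) ^ 2 = x 1 := by exact_mod_cast hw
    linear_combination this
  have posω : ∀ w : ℝ, x 0 * w ^ 2 = x 1 → 0 < (NN x w).re := by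
    intro w hw
    obtain ⟨h1, h2, h3⟩ := nzω w hw
    obtain ⟨H, hH⟩ := hsq x w x00 x10 hw h2 h3
    have h4 : (NN x w).re = H ^ 2 := by
      rw [hH, ← Complex.ofReal_pow, Complex.ofReal_re]
    rw [h4]
    have : H ≠ 0 := by
      rintro rfl
      exact h1 (by rw [hH]; simp)
    positivity
  have key := hsign 7 (zz x) nz (fun w => (NN x w).re) ω ω0 inj ?_ ?_ ?_ (posω ω ω2')
    (posω (-ω) (by rw [neg_sq]; exact ω2'))
  · -- parity
    have h1 : |zz x 1| = 1 := by simp [zz]
    have h2 : |zz x 2| = x 1 / x 0 := by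
      simp only [zz, Matrix.cons_val]
      rw [neg_div, abs_neg, abs_of_pos (div_pos x1 x0)]
    have h3 : ω ≠ 1 := by
      intro h
      have := neω 1
      apply this
      have h4 : zz x 1 = -1 := by simp [zz]
      rw [h4]
      rw [h] at ω2'
      linarith
    rw [Fin.sum_univ_seven] at key
    have h4 : (|zz x 1| < ω) ↔ ¬ (|zz x 2| < ω) := by
      rw [h1, h2, ← ω2]
      constructor
      · intro h; nlinarith
      · intro h
        by_contra h'
        have : ω < 1 := lt_of_le_of_ne (not_lt.mp h') h3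
        exact h (by nlinarith)
    have h5 : nz 0 = 18 ∧ nz 1 = 11 ∧ nz 2 = 11 ∧ nz 3 = 8 ∧ nz 4 = 8 ∧ nz 5 = 8 ∧ nz 6 = 8 := by
      decide
    obtain ⟨n0, n1, n2, n3, n4, n5, n6⟩ := h5
    rw [n0, n1, n2, n3, n4, n5, n6] at key
    have ev : ∀ (q : Prop) [Decidable q] (m : ℕ), Even m → Even (if q then m else 0) := by
      intro q _ m hm
      split_ifs
      · exact hm
      · exact Even.zero
    have v0 := ev (|zz x 0| < ω) 18 (by decide)
    have v3 := ev (|zz x 3| < ω) 8 (by decide)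
    have v4 := ev (|zz x 4| < ω) 8 (by decide)
    have v5 := ev (|zz x 5| < ω) 8 (by decide)
    have v6 := ev (|zz x 6| < ω) 8 (by decide)
    have odd12 : Odd ((if |zz x 1| < ω then 11 else 0) + (if |zz x 2| < ω then 11 else 0)) := by
      by_cases hq : |zz x 2| < ω
      · rw [if_neg (fun h => h4.mp h hq), if_pos hq]
        decide
      · rw [if_pos (h4.mpr hq), if_neg hq]
        decide
    have : Odd ((if |zz x 0| < ω then 18 else 0) + (if |zz x 1| < ω then 11 else 0) +
        (if |zz x 2| < ω then 11 else 0) + (if |zz x 3| < ω then 8 else 0) +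
        (if |zz x 4| < ω then 8 else 0) + (if |zz x 5| < ω then 8 else 0) +
        (if |zz x 6| < ω then 8 else 0)) := by
      have := (((((v0.add_odd odd12).add_even v3).add_even v4).add_even v5).add_even v6)
      convert this using 1
      ring
    exact (Nat.not_even_iff_odd.mpr this) key
  · intro i h
    apply neω i
    rw [← sq_abs, h, ω2']
  · intro w hw hne
    have hr : (arm3 x).Reg w ∧ (arm2 x).Reg w := by
      apply reg
      intro i h
      exact hne i (by exact_mod_cast h.symm)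
    constructor
    · have h1 := hcont x w hr.1 hr.2
      have h2 : ContinuousAt (fun w : ℝ => NN x (w : ℂ)) w :=
        ContinuousAt.comp (f := fun w : ℝ => (w : ℂ)) h1 Complex.continuous_ofReal.continuousAt
      exact Complex.continuous_re.continuousAt.comp h2
    · intro h0
      have h0' : NN x w = 0 := by
        rw [NN_re hconj x w]
        simpa using h0
      have hw2 : x 0 * w ^ 2 ≠ x 1 := fun h => (nzω w h).1 h0'
      obtain ⟨p, p2, p3, o2, o3, hp, hp2, hp3, ho2, ho3, q1, q2, q3, q4, q5, q6⟩ :=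
        hend hcommon x K w hr.1 hr.2 h0'
      have w0 : w ≠ 0 := by
        have := hne 0
        simp only [zz, Matrix.cons_val] at this
        exact this.symm
      exact hcon (hreal x w p p2 p3 o2 o3 x0 x1 w0 hw2 hp hp2 hp3 ho2 ho3 q1 q2 q3 q4 q5 q6)
  · intro i _
    exact ord_real hconj x (zz x i) (nz i) (ords i)

end Pool.Agent.N124.CU
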