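import Mathlib

set_option autoImplicit false

/-!
# Products over the two roots of a quadratic polynomial
-/

namespace Pool.Agent.N124.CU

open Filter Topology ComplexConjugate

/-- a square root -/
noncomputable def rt (z : ℂ) : ℂ := z ^ ((2 : ℕ) : ℂ)⁻¹

theorem rt_sq (z : ℂ) : rt z ^ 2 = z := Complex.cpow_nat_inv_pow z two_ne_zero

theorem rt_one : rt 1 = 1 := by simp [rt]

theorem rt_contAt {X : Type*} [TopologicalSpace X] {D : X → ℂ} {x₀ : X} (hD : ContinuousAt D x₀)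
    (h : D x₀ ∈ Complex.slitPlane) : ContinuousAt (fun x => rt (D x)) x₀ := by
  unfold rt
  exact hD.cpow continuousAt_const h

theorem rt_contAt_one {X : Type*} [TopologicalSpace X] {D : X → ℂ} {x₀ : X}
    (hD : ContinuousAt D x₀) (h : D x₀ = 1) : ContinuousAt (fun x => rt (D x)) x₀ :=
  rt_contAt hD (by rw [h]; exact Complex.one_mem_slitPlane)

/-- local continuous square root -/
theorem exists_sqrt {X : Type*} [TopologicalSpace X] {D : X → ℂ} {x₀ : X}
    (hD : ContinuousAt D x₀) : ∃ s : X → ℂ, ContinuousAt s x₀ ∧ ∀ x, s x ^ 2 = D x := by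
  by_cases h0 : D x₀ = 0
  · refine ⟨fun x => rt (D x), ?_, fun x => rt_sq _⟩
    have h1 : rt (D x₀) = 0 := by
      have := rt_sq (D x₀)
      rw [h0] at this ⊢
      exact pow_eq_zero_iff two_ne_zero |>.mp this
    have h5 : Tendsto (fun x => rt (D x)) (𝓝 x₀) (𝓝 0) := ?_
    · unfold ContinuousAt
      simp only [h1]
      exact h5
    rw [tendsto_zero_iff_norm_tendsto_zero]
    have h2 : ∀ x, ‖rt (D x)‖ = Real.sqrt ‖D x‖ := by
      intro x
      rw [← rt_sq (D x), norm_pow, rt_sq, Real.sqrt_sq (norm_nonneg _)]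
    simp only [h2]
    have h3 : Tendsto (fun x => Real.sqrt ‖D x‖) (𝓝 x₀) (𝓝 (Real.sqrt ‖D x₀‖)) :=
      (hD.norm).sqrt
    rw [h0, norm_zero, Real.sqrt_zero] at h3
    exact h3
  · refine ⟨fun x => rt (D x₀) * rt (D x / D x₀), ?_, fun x => ?_⟩
    · refine continuousAt_const.mul (rt_contAt_one (hD.div_const _) ?_)
      exact div_self h0
    · rw [mul_pow, rt_sq, rt_sq]
      field_simp

/-- the product of the values of `f` at the two roots of `a X ^ 2 + b X + c` -/
noncomputable def QP (a b c : ℂ) (f : ℂ → ℂ) : ℂ :=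
  f ((-b + rt (b ^ 2 - 4 * a * c)) / (2 * a)) * f ((-b - rt (b ^ 2 - 4 * a * c)) / (2 * a))

theorem QP_eq {a b c s : ℂ} (hs : s ^ 2 = b ^ 2 - 4 * a * c) (f : ℂ → ℂ) :
    QP a b c f = f ((-b + s) / (2 * a)) * f ((-b - s) / (2 * a)) := by
  have h1 : rt (b ^ 2 - 4 * a * c) ^ 2 = s ^ 2 := by rw [rt_sq, hs]
  rcases sq_eq_sq_iff_eq_or_eq_neg.mp h1 with h | h
  · unfold QP
    rw [h]
  · unfold QP
    rw [h, sub_neg_eq_add, ← sub_eq_add_neg, mul_comm]

theorem QP_roots {a b c r s : ℂ} (ha : a ≠ 0) (hb : b = -(a * (r + s))) (hc : c = a * r * s)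
    (f : ℂ → ℂ) : QP a b c f = f r * f s := by
  rw [QP_eq (s := a * (r - s)) (by rw [hb, hc]; ring)]
  congr 2
  · rw [hb]; field_simp; ring
  · rw [hb]; field_simp; ring

/-- there are two roots -/
theorem exists_roots {a : ℂ} (b c : ℂ) (ha : a ≠ 0) :
    ∃ r s : ℂ, b = -(a * (r + s)) ∧ c = a * r * s := by
  refine ⟨(-b + rt (b ^ 2 - 4 * a * c)) / (2 * a), (-b - rt (b ^ 2 - 4 * a * c)) / (2 * a), ?_, ?_⟩
  · field_simp; ring
  · have := rt_sq (b ^ 2 - 4 * a * c)
    set z := rt (b ^ 2 - 4 * a * c)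
    field_simp
    linear_combination this

theorem root_cases {a b c r s z : ℂ} (ha : a ≠ 0) (hb : b = -(a * (r + s))) (hc : c = a * r * s)
    (hz : a * z ^ 2 + b * z + c = 0) : z = r ∨ z = s := by
  have h : a * ((z - r) * (z - s)) = 0 := by
    rw [hb, hc] at hz
    linear_combination hz
  rcases mul_eq_zero.mp h with h | h
  · exact absurd h ha
  · rcases mul_eq_zero.mp h with h | h
    · exact Or.inl (sub_eq_zero.mp h)
    · exact Or.inr (sub_eq_zero.mp h)

theorem root_left {a b c r s : ℂ} (hb : b = -(a * (r + s))) (hc : c = a * r * s) :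
    a * r ^ 2 + b * r + c = 0 := by
  rw [hb, hc]; ring

theorem root_right {a b c r s : ℂ} (hb : b = -(a * (r + s))) (hc : c = a * r * s) :
    a * s ^ 2 + b * s + c = 0 := by
  rw [hb, hc]; ring

theorem QP_scale {a b c k : ℂ} (hk : k ≠ 0) (f : ℂ → ℂ) :
    QP (k * a) (k * b) (k * c) f = QP a b c f := by
  rw [QP_eq (s := k * rt (b ^ 2 - 4 * a * c)) (by rw [mul_pow, rt_sq]; ring)]
  unfold QP
  congr 2
  · rw [show -(k * b) + k * rt (b ^ 2 - 4 * a * c) = k * (-b + rt (b ^ 2 - 4 * a * c)) by ring,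
      show 2 * (k * a) = k * (2 * a) by ring, mul_div_mul_left _ _ hk]
  · rw [show -(k * b) - k * rt (b ^ 2 - 4 * a * c) = k * (-b - rt (b ^ 2 - 4 * a * c)) by ring,
      show 2 * (k * a) = k * (2 * a) by ring, mul_div_mul_left _ _ hk]

theorem QP_congr {a b c : ℂ} (ha : a ≠ 0) {f g : ℂ → ℂ}
    (h : ∀ r, a * r ^ 2 + b * r + c = 0 → f r = g r) : QP a b c f = QP a b c g := by
  obtain ⟨r, s, hb, hc⟩ := exists_roots b c ha
  rw [QP_roots ha hb hc, QP_roots ha hb hc, h r (root_left hb hc), h s (root_right hb hc)]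

theorem QP_ne_zero {a b c : ℂ} (ha : a ≠ 0) {f : ℂ → ℂ}
    (h : ∀ r, a * r ^ 2 + b * r + c = 0 → f r ≠ 0) : QP a b c f ≠ 0 := by
  obtain ⟨r, s, hb, hc⟩ := exists_roots b c ha
  rw [QP_roots ha hb hc]
  exact mul_ne_zero (h r (root_left hb hc)) (h s (root_right hb hc))

theorem QP_eq_zero {a b c : ℂ} (ha : a ≠ 0) {f : ℂ → ℂ} (h : QP a b c f = 0) :
    ∃ r, a * r ^ 2 + b * r + c = 0 ∧ f r = 0 := by
  by_contra hcon
  push Not at hcon
  exact QP_ne_zero ha hcon h

theorem QP_mul_left (a b c k : ℂ) (f : ℂ → ℂ) :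
    QP a b c (fun z => k * f z) = k ^ 2 * QP a b c f := by
  unfold QP
  ring

theorem QP_mul (a b c : ℂ) (f g : ℂ → ℂ) :
    QP a b c (fun z => f z * g z) = QP a b c f * QP a b c g := by
  unfold QP
  ring

theorem QP_conj (a b c : ℂ) (f : ℂ → ℂ) :
    conj (QP a b c f) = QP (conj a) (conj b) (conj c) (fun z => conj (f (conj z))) := by
  have h2 : conj (2 : ℂ) = 2 := Complex.conj_ofNat 2
  have h4 : conj (4 : ℂ) = 4 := Complex.conj_ofNat 4
  rw [QP_eq (a := conj a) (b := conj b) (c := conj c) (s := conj (rt (b ^ 2 - 4 * a * c)))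
    (by rw [← map_pow, rt_sq]; simp only [map_sub, map_mul, map_pow, h4])]
  unfold QP
  simp only [map_mul, map_div₀, map_add, map_sub, map_neg, Complex.conj_conj, h2]

/-- the splitting of the two roots when `a c` is small -/
theorem QP_split {a b c θ : ℂ} (ha : a ≠ 0) (hb : b ≠ 0) (hθ : θ ^ 2 = 1 - 4 * a * c / b ^ 2)
    (h1 : 1 + θ ≠ 0) (f : ℂ → ℂ) :
    QP a b c f = f (-(2 * c) / (b * (1 + θ))) * f (-(b * (1 + θ)) / (2 * a)) := by
  have hs : (b * θ) ^ 2 = b ^ 2 - 4 * a * c := by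
    rw [mul_pow, hθ]; field_simp
  rw [QP_eq hs]
  congr 2
  · rw [div_eq_div_iff (by simpa using ha) (mul_ne_zero hb h1)]
    linear_combination hs
  · congr 1
    ring

/-- continuity of the product over the roots -/
theorem QP_cont {X : Type*} [TopologicalSpace X] {a b c : X → ℂ} {f : X → ℂ → ℂ} {x₀ : X}
    (ha : ContinuousAt a x₀) (hb : ContinuousAt b x₀) (hc : ContinuousAt c x₀) (h0 : a x₀ ≠ 0)
    (hf : ∀ r, a x₀ * r ^ 2 + b x₀ * r + c x₀ = 0 →
      ContinuousAt (fun y : X × ℂ => f y.1 y.2) (x₀, r)) :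
    ContinuousAt (fun x => QP (a x) (b x) (c x) (f x)) x₀ := by
  have hD : ContinuousAt (fun x => b x ^ 2 - 4 * a x * c x) x₀ := by fun_prop
  obtain ⟨s, hs, hs2⟩ := exists_sqrt hD
  have e : (fun x => QP (a x) (b x) (c x) (f x)) =
      fun x => f x ((-b x + s x) / (2 * a x)) * f x ((-b x - s x) / (2 * a x)) := by
    funext x
    exact QP_eq (hs2 x) _
  rw [e]
  have h2a : (2 * a x₀) ≠ 0 := mul_ne_zero two_ne_zero h0
  have hs0 := hs2 x₀
  have hr1 : ContinuousAt (fun x => (-b x + s x) / (2 * a x)) x₀ := by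
    exact ContinuousAt.div₀ (by fun_prop) (by fun_prop) h2a
  have hr2 : ContinuousAt (fun x => (-b x - s x) / (2 * a x)) x₀ := by
    exact ContinuousAt.div₀ (by fun_prop) (by fun_prop) h2a
  have k1 := hf ((-b x₀ + s x₀) / (2 * a x₀)) (by field_simp; linear_combination hs0)
  have k2 := hf ((-b x₀ - s x₀) / (2 * a x₀)) (by field_simp; linear_combination hs0)
  have m1 : ContinuousAt (fun x => (x, (-b x + s x) / (2 * a x))) x₀ :=
    continuousAt_id.prodMk hr1
  have m2 : ContinuousAt (fun x => (x, (-b x - s x) / (2 * a x))) x₀ :=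
    continuousAt_id.prodMk hr2
  exact (ContinuousAt.comp (f := fun x => (x, (-b x + s x) / (2 * a x))) k1 m1).mul
    (ContinuousAt.comp (f := fun x => (x, (-b x - s x) / (2 * a x))) k2 m2)

end Pool.Agent.N124.CU
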