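import Mathlib

set_option autoImplicit false

/-!
# Project CU (helper124): MP_01c1f4_co, statements

The graph of the cube together with a long diagonal, that is `K_{4,4}` minus three disjoint edges:
for every generic real framework there is an equivalent complex framework in which the squared
distance of `b₁` and `d` is a real number that violates the triangle inequality in the triangle
`a, b₁, d`.
-/

namespace Pool.Agent.N124.CU

open Filter Topology

/-- vertices `0 = a`, `1, 2, 3 = c₁, c₂, c₃`, `4 = d`, `5, 6, 7 = b₁, b₂, b₃` -/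
def adjB (i j : Fin 8) : Bool :=
  decide (i.val < 4) && decide (4 ≤ j.val) && (decide (i.val = 0) || decide (j.val ≠ i.val + 4))

/-- the cube with a long diagonal -/
def G0 : SimpleGraph (Fin 8) where
  Adj i j := adjB i j = true ∨ adjB j i = true
  symm := ⟨fun _ _ h => h.symm⟩
  loopless := ⟨by decide⟩

instance : DecidableRel G0.Adj := fun i j => inferInstanceAs (Decidable (_ ∨ _))

/-- the 13 edges: `ad`, `ab₁`, `ab₂`, `ab₃`, `c₁d`, `c₂d`, `c₃d`, `c₂b₁`, `c₃b₁`, `c₁b₂`, `c₃b₂`,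
`c₁b₃`, `c₂b₃` -/
def E13 : Fin 13 → Fin 8 × Fin 8 :=
  ![(0, 4), (0, 5), (0, 6), (0, 7), (1, 4), (2, 4), (3, 4), (2, 5), (3, 5), (1, 6), (3, 6), (1, 7),
    (2, 7)]

/-- the edges are the edges -/
theorem adj_iff (i j : Fin 8) : G0.Adj i j ↔ ∃ e, E13 e = (i, j) ∨ E13 e = (j, i) := by
  revert i j
  decide

/-- The main step, in null coordinates `u = x + iy`, `v = x - iy`. -/
def S_core : Prop := ∀ x : Fin 13 → ℝ, AlgebraicIndependent ℚ x → 0 < x 0 → 0 < x 1 →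
  ∃ (u v : Fin 8 → ℂ) (t : ℝ),
    (∀ e, (u (E13 e).1 - u (E13 e).2) * (v (E13 e).1 - v (E13 e).2) = (x e : ℂ)) ∧
    (u 5 - u 4) * (v 5 - v 4) = (t : ℂ) ∧ 4 * x 0 * x 1 < (t - x 0 - x 1) ^ 2

/-- The squared edge lengths of a generic framework are algebraically independent. -/
def S_ind : Prop := ∀ p : Fin 8 → Fin 2 → ℝ,
  AlgebraicIndependent ℚ (fun x : Fin 8 × Fin 2 => p x.1 x.2) →
    AlgebraicIndependent ℚ (fun e : Fin 13 => ∑ k, (p (E13 e).1 k - p (E13 e).2 k) ^ 2)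

/-- Infinitesimal rigidity of generic frameworks. -/
def S_rig : Prop := ∀ p : Fin 8 → Fin 2 → ℝ,
  AlgebraicIndependent ℚ (fun x : Fin 8 × Fin 2 => p x.1 x.2) →
    ∀ u : Fin 8 → Fin 2 → ℝ,
      (∀ i j, G0.Adj i j → ∑ k, (p i k - p j k) * (u i k - u j k) = 0) →
        ∀ i j, ∑ k, (p i k - p j k) * (u i k - u j k) = 0

/-- There are finitely many complex realisations. -/
def S_cfin : Prop := ∀ p : Fin 8 → Fin 2 → ℝ,
  AlgebraicIndependent ℚ (fun x : Fin 8 × Fin 2 => p x.1 x.2) →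
    {D : Fin 8 → Fin 8 → ℂ | ∃ q : Fin 8 → Fin 2 → ℂ,
      (∀ i j, G0.Adj i j → ∑ k, (q i k - q j k) ^ 2 = ∑ k, ((p i k : ℂ) - (p j k : ℂ)) ^ 2) ∧
      D = fun i j => ∑ k, (q i k - q j k) ^ 2}.Finite

/-- The frozen statement S06894. -/
def S_goal : Prop :=
    ¬ (∀ (n : ℕ) (G : SimpleGraph (Fin n)),
    (∀ p : Fin n → Fin 2 → ℝ,
      AlgebraicIndependent ℚ (fun x : Fin n × Fin 2 => p x.1 x.2) →
      ∀ u : Fin n → Fin 2 → ℝ,
        (∀ i j, G.Adj i j → ∑ k, (p i k - p j k) * (u i k - u j k) = 0) →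
        ∀ i j, ∑ k, (p i k - p j k) * (u i k - u j k) = 0) →
    ∃ p : Fin n → Fin 2 → ℝ,
      AlgebraicIndependent ℚ (fun x : Fin n × Fin 2 => p x.1 x.2) ∧
      {D : Fin n → Fin n → ℝ | ∃ q : Fin n → Fin 2 → ℝ,
          (∀ i j, G.Adj i j → ∑ k, (q i k - q j k) ^ 2 = ∑ k, (p i k - p j k) ^ 2) ∧
          D = fun i j => ∑ k, (q i k - q j k) ^ 2}.ncard =
      {D : Fin n → Fin n → ℂ | ∃ q : Fin n → Fin 2 → ℂ,
          (∀ i j, G.Adj i j →
            ∑ k, (q i k - q j k) ^ 2 = ∑ k, ((p i k : ℂ) - (p j k : ℂ)) ^ 2) ∧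
          D = fun i j => ∑ k, (q i k - q j k) ^ 2}.ncard)

/-- Assembly. -/
def S_asm : Prop := S_core → S_ind → S_rig → S_cfin → S_goal

/-- Parity of the total order of the poles between two points with positive values. -/
def S_sign : Prop := ∀ (m : ℕ) (z : Fin m → ℝ) (n : Fin m → ℕ) (N : ℝ → ℝ) (ω : ℝ), 0 < ω →
  Function.Injective z → (∀ i, |z i| ≠ ω) →
  (∀ w, |w| ≤ ω → (∀ i, z i ≠ w) → ContinuousAt N w ∧ N w ≠ 0) →
  (∀ i, |z i| < ω → ∃ c : ℝ, c ≠ 0 ∧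
    Tendsto (fun w => (w - z i) ^ n i * N w) (𝓝[≠] (z i)) (𝓝 c)) →
  0 < N ω → 0 < N (-ω) → Even (∑ i, if |z i| < ω then n i else 0)

end Pool.Agent.N124.CU
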