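import Pool.Agent.N124.CU.Arm
import Pool.Agent.N124.CU.Stm

set_option autoImplicit false

/-!
# Project CU (helper124): statements for `S_core`

Coordinates (null coordinates `u = x + iy`, `v = x - iy`): `a = (1, δ)`, `d = (0, 0)`,
`b₁ = (1 + w, δ + α₁ / w)`, `c_j = (p_j, γ_j / p_j)`, `b_i = (1 + ω_i, δ + α_i / ω_i)`.

Indices of `x`: `0` δ (ad), `1, 2, 3` α₁, α₂, α₃ (a b_i), `4, 5, 6` γ₁, γ₂, γ₃ (d c_i), `7` b₁c₂,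
`8` b₁c₃, `9` b₂c₁, `10` b₂c₃, `11` b₃c₁, `12` b₃c₂.
-/

namespace Pool.Agent.N124.CU

open Filter Topology

/-! ## The norm -/

/-- resultant of the two quadratic equations
`v₂ p² - (u₂ v₂ + e₂) p + u₂ g = 0`, `v₃ p² - (u₃ v₃ + e₃) p + u₃ g = 0`, divided by `g` -/
def FF (g e2 e3 u3 v3 u2 v2 : ℂ) : ℂ :=
  g * (v2 * u3 - u2 * v3) ^ 2 -
    ((e2 + u2 * v2) * u3 - (e3 + u3 * v3) * u2) * ((e3 + u3 * v3) * v2 - (e2 + u2 * v2) * v3)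

/-- the arm of `b₃` (through `c₂`) -/
noncomputable def arm3 (x : Fin 13 → ℝ) : Par := ⟨x 0, x 1, x 3, x 5, x 12, x 7⟩

/-- the arm of `b₂` (through `c₃`) -/
noncomputable def arm2 (x : Fin 13 → ℝ) : Par := ⟨x 0, x 1, x 2, x 6, x 10, x 8⟩

noncomputable def Fx (x : Fin 13 → ℝ) (u3 v3 u2 v2 : ℂ) : ℂ :=
  FF (x 4) ((x 4 : ℂ) - x 9) ((x 4 : ℂ) - x 11) u3 v3 u2 v2

/-- product over the 4 positions of `b₃` and the 4 positions of `b₂` -/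
noncomputable def NN (x : Fin 13 → ℝ) (w : ℂ) : ℂ :=
  (arm3 x).Arm w (fun u3 v3 => (arm2 x).Arm w (fun u2 v2 => Fx x u3 v3 u2 v2))

/-! ## Pure algebra -/

/-- a common root -/
def S_common : Prop := ∀ g e2 e3 u3 v3 u2 v2 : ℂ, g ≠ 0 → e2 ≠ 0 → (u2 ≠ 0 ∨ v2 ≠ 0) →
  (u2 ≠ 0 ∨ u3 ≠ 0) → (v2 ≠ 0 ∨ v3 ≠ 0) → FF g e2 e3 u3 v3 u2 v2 = 0 →
  ∃ p : ℂ, p ≠ 0 ∧ v2 * p ^ 2 - (u2 * v2 + e2) * p + u2 * g = 0 ∧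
    v3 * p ^ 2 - (u3 * v3 + e3) * p + u3 * g = 0

/-- the realisation: `u = ![1, p, p₂, p₃, 0, 1 + w, 1 + ω₂, 1 + ω₃]`,
`v = ![δ, γ₁ / p, γ₂ / p₂, γ₃ / p₃, 0, δ + α₁ / w, δ + α₂ / ω₂, δ + α₃ / ω₃]`,
`t = (1 + w) (δ + α₁ / w)` -/
def S_real : Prop := ∀ (x : Fin 13 → ℝ) (w : ℝ) (p p2 p3 ω2 ω3 : ℂ), 0 < x 0 → 0 < x 1 →
  w ≠ 0 → x 0 * w ^ 2 ≠ x 1 → p ≠ 0 → p2 ≠ 0 → p3 ≠ 0 → ω2 ≠ 0 → ω3 ≠ 0 →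
  (arm3 x).RQ w p2 → (arm3 x).RI p2 ω3 → (arm2 x).RQ w p3 → (arm2 x).RI p3 ω2 →
  (((x 0 : ℂ) + x 2 / ω2) * p ^ 2 -
    ((1 + ω2) * ((x 0 : ℂ) + x 2 / ω2) + ((x 4 : ℂ) - x 9)) * p + (1 + ω2) * x 4 = 0) →
  (((x 0 : ℂ) + x 3 / ω3) * p ^ 2 -
    ((1 + ω3) * ((x 0 : ℂ) + x 3 / ω3) + ((x 4 : ℂ) - x 11)) * p + (1 + ω3) * x 4 = 0) →
  ∃ (u v : Fin 8 → ℂ) (t : ℝ),
    (∀ e, (u (E13 e).1 - u (E13 e).2) * (v (E13 e).1 - v (E13 e).2) = (x e : ℂ)) ∧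
    (u 5 - u 4) * (v 5 - v 4) = (t : ℂ) ∧ 4 * x 0 * x 1 < (t - x 0 - x 1) ^ 2

/-! ## Fields -/

/-- closed under roots of quadratic polynomials -/
def QC (L : Subfield ℂ) : Prop := ∀ a b c z : ℂ, a ∈ L → b ∈ L → c ∈ L →
  (a ≠ 0 ∨ b ≠ 0 ∨ c ≠ 0) → a * z ^ 2 + b * z + c = 0 → z ∈ L

/-- algebraically closed subfields of `ℂ` attached to the sets of indices -/
structure Fld (x : Fin 13 → ℝ) where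
  K : Set (Fin 13) → Subfield ℂ
  mem : ∀ S j, j ∈ S → (x j : ℂ) ∈ K S
  not_mem : ∀ S j, j ∉ S → (x j : ℂ) ∉ K S
  root : ∀ S, QC (K S)
  mono : ∀ S T, S ⊆ T → K S ≤ K T

def S_field : Prop := ∀ x : Fin 13 → ℝ, AlgebraicIndependent ℚ x → Nonempty (Fld x)

/-! ## Local behaviour -/

/-- kinds of positions `(u, v)` for `s → 0`: `Z`: `(s X, c)`; `F`: finite; `I`: `(1 + s x, V / s)` -/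
inductive Kd
  | Z | F | I

/-- a position of kind `k` with data `a, c` -/
def Ty (k : Kd) (u v : ℂ → ℂ) (a c : ℂ) : Prop :=
  match k with
  | .Z => Tendsto (fun s => u s / s) (𝓝[≠] 0) (𝓝 a) ∧ Tendsto v (𝓝[≠] 0) (𝓝 c)
  | .F => Tendsto u (𝓝[≠] 0) (𝓝 a) ∧ Tendsto v (𝓝[≠] 0) (𝓝 c)
  | .I => Tendsto (fun s => (u s - 1) / s) (𝓝[≠] 0) (𝓝 a) ∧
      Tendsto (fun s => s * v s) (𝓝[≠] 0) (𝓝 c)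

/-- the order of `FF` at a pair of positions -/
def nn : Kd → Kd → ℤ
  | .Z, .Z => -1
  | .Z, .F => 0
  | .F, .Z => 0
  | .F, .F => 0
  | .Z, .I => 1
  | .I, .Z => 1
  | .F, .I => 2
  | .I, .F => 2
  | .I, .I => 2

def S_pair : Prop := ∀ L2 L3 : Subfield ℂ, QC L2 → QC L3 → ∀ g e2 e3 : ℂ, g ∈ L2 → g ∈ L3 →
  e2 ∉ L2 → e3 ∈ L2 → e2 ∈ L3 → e3 ∉ L3 →
  ∀ (k3 k2 : Kd) (u3 v3 u2 v2 : ℂ → ℂ) (a3 c3 a2 c2 : ℂ),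
    Ty k3 u3 v3 a3 c3 → Ty k2 u2 v2 a2 c2 →
    a3 ∈ L2 → c3 ∈ L2 → a2 ∈ L2 → c2 ∈ L2 → a3 ∈ L3 → c3 ∈ L3 → a2 ∈ L3 → c2 ∈ L3 →
    a3 ≠ 0 → c3 ≠ 0 → a2 ≠ 0 → c2 ≠ 0 → (k3 = .I → k2 = .I → c3 ≠ c2) →
    ∃ c : ℂ, c ≠ 0 ∧ Tendsto (fun s => s ^ nn k3 k2 * FF g e2 e3 (u3 s) (v3 s) (u2 s) (v2 s))
      (𝓝[≠] 0) (𝓝 c)

/-- two positions of kind `I` with the same `c` -/
def S_pairB : Prop := ∀ L : Subfield ℂ, QC L → ∀ g e2 e3 : ℂ, e2 ∉ L → e3 ∈ L →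
  ∀ (u3 v3 u2 v2 h : ℂ → ℂ) (a3 a2 c y3 y2 : ℂ), Ty .I u3 v3 a3 c → Ty .I u2 v2 a2 c →
    Tendsto (fun s => v3 s - h s) (𝓝[≠] 0) (𝓝 y3) →
    Tendsto (fun s => v2 s - h s) (𝓝[≠] 0) (𝓝 y2) →
    a3 ∈ L → a2 ∈ L → c ∈ L → y3 ∈ L → y2 ∈ L → c ≠ 0 →
    ∃ C : ℂ, C ≠ 0 ∧ Tendsto (fun s => s ^ (1 : ℤ) * FF g e2 e3 (u3 s) (v3 s) (u2 s) (v2 s))
      (𝓝[≠] 0) (𝓝 C)

/-! ### Inner products -/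

def S_innZ : Prop := ∀ (P : Par) (p : ℂ → ℂ) (c : ℂ), P.al ≠ 0 → P.ga ≠ 0 → c ≠ 0 →
  Tendsto (fun s => p s / s) (𝓝[≠] 0) (𝓝 c) →
  ∃ u v : Fin 2 → ℂ → ℂ,
    (∀ᶠ s in 𝓝[≠] (0 : ℂ), ∀ f : ℂ → ℂ → ℂ,
      P.Inner (p s) f = f (u 0 s) (v 0 s) * f (u 1 s) (v 1 s)) ∧
    Ty .Z (u 0) (v 0) (c * (P.ga - P.be) / P.ga) (P.de - P.al) ∧
    Ty .I (u 1) (v 1) (P.al * c / P.ga) (P.ga / c) ∧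
    Tendsto (fun s => v 1 s - P.ga / p s) (𝓝[≠] 0) (𝓝 P.be)

def S_innI : Prop := ∀ (P : Par) (p : ℂ → ℂ) (c : ℂ), P.al ≠ 0 → P.de ≠ P.ga → P.al ≠ P.be →
  c ≠ 0 → Tendsto (fun s => (p s - 1) / s) (𝓝[≠] 0) (𝓝 c) →
  ∃ u v : Fin 2 → ℂ → ℂ,
    (∀ᶠ s in 𝓝[≠] (0 : ℂ), ∀ f : ℂ → ℂ → ℂ,
      P.Inner (p s) f = f (u 0 s) (v 0 s) * f (u 1 s) (v 1 s)) ∧
    Ty .I (u 0) (v 0) (P.al * c / (P.al - P.be)) ((P.al - P.be) / c) ∧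
    Ty .F (u 1) (v 1) (1 + (P.be - P.al) / (P.de - P.ga))
      (P.de + P.al / ((P.be - P.al) / (P.de - P.ga)))

def S_innF : Prop := ∀ (P : Par) (p : ℂ → ℂ) (p0 : ℂ), P.al ≠ 0 → P.ia p0 ≠ 0 → p0 ≠ 0 →
  p0 ≠ 1 → Tendsto p (𝓝[≠] 0) (𝓝 p0) →
  ∃ (u v : Fin 2 → ℂ → ℂ) (ω : Fin 2 → ℂ),
    (∀ᶠ s in 𝓝[≠] (0 : ℂ), ∀ f : ℂ → ℂ → ℂ,
      P.Inner (p s) f = f (u 0 s) (v 0 s) * f (u 1 s) (v 1 s)) ∧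
    ∀ i, P.RI p0 (ω i) ∧ ω i ≠ 0 ∧ Ty .F (u i) (v i) (1 + ω i) (P.de + P.al / ω i)

/-! ### The positions of `c` -/

/-- `p` and `q` are the two positions of `c` near `w = z` -/
def CRep (P : Par) (z : ℂ) (p q : ℂ → ℂ) : Prop := ∀ᶠ s in 𝓝[≠] (0 : ℂ), ∀ g : ℂ → ℂ,
  QP (P.eta (z + s)) (P.qb (z + s)) (P.qc (z + s)) g = g (p s) * g (q s)

def S_c0 : Prop := ∀ P : Par, P.a1 ≠ 0 → P.ga ≠ 0 → P.a1 ≠ P.bp → ∃ p q : ℂ → ℂ,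
  CRep P 0 p q ∧ Tendsto (fun s => p s / s) (𝓝[≠] 0) (𝓝 (P.ga / P.a1)) ∧
  Tendsto (fun s => (q s - 1) / s) (𝓝[≠] 0) (𝓝 ((P.a1 - P.bp) / P.a1)) ∧
  Tendsto (fun s => P.ga / p s - P.eta s) (𝓝[≠] 0) (𝓝 (-P.bp))

def S_c1 : Prop := ∀ P : Par, P.ga ≠ 0 → P.de ≠ P.a1 → P.ga ≠ P.bp → ∃ p q : ℂ → ℂ,
  CRep P (-1) p q ∧ Tendsto (fun s => p s / s) (𝓝[≠] 0) (𝓝 (P.ga / (P.ga - P.bp))) ∧
  Tendsto q (𝓝[≠] 0) (𝓝 ((P.ga - P.bp) / (P.de - P.a1)))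

def S_cs : Prop := ∀ (P : Par) (w : ℂ), P.de ≠ P.ga → w = (P.bp - P.a1) / (P.de - P.ga) →
  P.a1 ≠ P.bp → P.eta w ≠ 0 → P.bp ≠ P.ga * w ^ 2 → ∃ p q : ℂ → ℂ,
  CRep P w p q ∧
  Tendsto (fun s => (p s - 1) / s) (𝓝[≠] 0) (𝓝 ((P.bp - P.a1) / (P.bp - P.ga * w ^ 2))) ∧
  Tendsto q (𝓝[≠] 0) (𝓝 ((1 + w) * P.ga / P.eta w))

def S_cr : Prop := ∀ (P : Par) (z : ℂ), P.Reg z → ∃ (p q : ℂ → ℂ) (p0 q0 : ℂ),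
  CRep P z p q ∧ P.RQ z p0 ∧ P.RQ z q0 ∧ Tendsto p (𝓝[≠] 0) (𝓝 p0) ∧
  Tendsto q (𝓝[≠] 0) (𝓝 q0)

/-! ### Arms -/

/-- the four positions of `b` near `w = z` -/
def Desc (P : Par) (z : ℂ) (k : Fin 4 → Kd) (u v : Fin 4 → ℂ → ℂ) (a c : Fin 4 → ℂ) : Prop :=
  (∀ᶠ s in 𝓝[≠] (0 : ℂ), ∀ f : ℂ → ℂ → ℂ, P.Arm (z + s) f = ∏ i, f (u i s) (v i s)) ∧
    ∀ i, Ty (k i) (u i) (v i) (a i) (c i)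

/-- the data are nonzero elements of `L` -/
def Nice (L : Subfield ℂ) (a c : Fin 4 → ℂ) : Prop :=
  ∀ i, a i ∈ L ∧ c i ∈ L ∧ a i ≠ 0 ∧ c i ≠ 0

/-- generic parameters -/
structure Gen (P : Par) (L0 L : Subfield ℂ) : Prop where
  qc0 : QC L0
  qc : QC L
  le : L0 ≤ L
  mde : P.de ∈ L0
  ma1 : P.a1 ∈ L0
  mal : P.al ∈ L0
  mga : P.ga ∈ L0
  mbp : P.bp ∈ L0
  mbe : P.be ∈ L
  nbe : P.be ∉ L0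
  de0 : P.de ≠ 0
  a10 : P.a1 ≠ 0
  al0 : P.al ≠ 0
  ga0 : P.ga ≠ 0
  h1 : P.de ≠ P.ga
  h2 : P.a1 ≠ P.bp
  h3 : P.de ≠ P.al
  h4 : P.de ≠ P.a1
  h5 : P.ga ≠ P.bp
  h6 : P.ga - P.bp ≠ P.de - P.a1
  h7 : P.de * P.bp ≠ P.a1 * P.ga
  h8 : P.bp * (P.de - P.ga) ^ 2 ≠ P.ga * (P.bp - P.a1) ^ 2
  h9 : P.de * (P.bp - P.a1) ^ 2 ≠ P.a1 * (P.de - P.ga) ^ 2

/-- the special point `w*` of an arm -/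
noncomputable def Par.ws (P : Par) : ℂ := (P.bp - P.a1) / (P.de - P.ga)

def S_arm0 : Prop := ∀ (P : Par) (L0 L : Subfield ℂ), Gen P L0 L →
  ∃ (u v : Fin 4 → ℂ → ℂ) (a c : Fin 4 → ℂ), Desc P 0 ![.Z, .I, .F, .I] u v a c ∧ Nice L a c ∧
    c 1 = P.a1 ∧ c 3 = P.a1 * (P.al - P.be) / (P.a1 - P.bp) ∧
    Tendsto (fun s => v 1 s - P.eta s) (𝓝[≠] 0) (𝓝 (P.be - P.bp))

def S_arm1 : Prop := ∀ (P : Par) (L0 L : Subfield ℂ), Gen P L0 L →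
  ∃ (u v : Fin 4 → ℂ → ℂ) (a c : Fin 4 → ℂ), Desc P (-1) ![.Z, .I, .F, .F] u v a c ∧
    Nice L a c ∧ c 1 = P.ga - P.bp

def S_arms : Prop := ∀ (P : Par) (L0 L : Subfield ℂ), Gen P L0 L →
  ∃ (u v : Fin 4 → ℂ → ℂ) (a c : Fin 4 → ℂ), Desc P P.ws ![.I, .F, .F, .F] u v a c ∧ Nice L a c

def S_armr : Prop := ∀ (P : Par) (L0 L : Subfield ℂ) (z : ℂ), Gen P L0 L → P.Reg z → z ∈ L0 →
  ∃ (u v : Fin 4 → ℂ → ℂ) (a c : Fin 4 → ℂ), Desc P z ![.F, .F, .F, .F] u v a c ∧ Nice L a c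

/-- the four arm statements from the statements about `b` and `c` -/
def S_armA : Prop := S_innZ → S_innI → S_innF → S_c0 → S_c1 → S_arm0 ∧ S_arm1
def S_armB : Prop := S_innI → S_innF → S_cs → S_cr → S_arms ∧ S_armr

/-! ## The norm at the special points -/

def S_prod : Prop := ∀ (x : Fin 13 → ℝ) (z : ℂ) (k3 k2 : Fin 4 → Kd)
  (u3 v3 u2 v2 : Fin 4 → ℂ → ℂ) (a3 c3 a2 c2 : Fin 4 → ℂ),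
  Desc (arm3 x) z k3 u3 v3 a3 c3 → Desc (arm2 x) z k2 u2 v2 a2 c2 → ∀ n : Fin 4 → Fin 4 → ℤ,
  (∀ i j, ∃ c : ℂ, c ≠ 0 ∧
    Tendsto (fun s => s ^ n i j * Fx x (u3 i s) (v3 i s) (u2 j s) (v2 j s)) (𝓝[≠] 0) (𝓝 c)) →
  ∃ c : ℂ, c ≠ 0 ∧ Tendsto (fun s => s ^ (∑ i, ∑ j, n i j) * NN x (z + s)) (𝓝[≠] 0) (𝓝 c)

/-- the field of the data of the arms -/
def SL : Set (Fin 13) := {j | j ≠ 9 ∧ j ≠ 11}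
def SL3 : Set (Fin 13) := {j | j ≠ 4 ∧ j ≠ 9 ∧ j ≠ 11 ∧ j ≠ 12}
def SL2 : Set (Fin 13) := {j | j ≠ 4 ∧ j ≠ 9 ∧ j ≠ 11 ∧ j ≠ 10}

def S_gen : Prop := ∀ (x : Fin 13 → ℝ) (K : Fld x),
  Gen (arm3 x) (K.K SL3) (K.K SL) ∧ Gen (arm2 x) (K.K SL2) (K.K SL)

/-- `NN` has order `-n` at `z` -/
def Ord (x : Fin 13 → ℝ) (z : ℂ) (n : ℕ) : Prop :=
  ∃ c : ℂ, c ≠ 0 ∧ Tendsto (fun s => s ^ n * NN x (z + s)) (𝓝[≠] 0) (𝓝 c)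

def S_pt0 : Prop := S_arm0 → S_pair → S_pairB → S_prod → S_gen →
  ∀ x : Fin 13 → ℝ, Fld x → Ord x 0 18

def S_pt1 : Prop := S_arm1 → S_pair → S_prod → S_gen →
  ∀ x : Fin 13 → ℝ, Fld x → Ord x (-1) 11

def S_pts3 : Prop := S_arms → S_armr → S_pair → S_prod → S_gen →
  ∀ x : Fin 13 → ℝ, Fld x → (arm2 x).Reg (arm3 x).ws → Ord x (arm3 x).ws 8

def S_pts2 : Prop := S_arms → S_armr → S_pair → S_prod → S_gen →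
  ∀ x : Fin 13 → ℝ, Fld x → (arm3 x).Reg (arm2 x).ws → Ord x (arm2 x).ws 8

def S_cont : Prop := ∀ (x : Fin 13 → ℝ) (w : ℂ), (arm3 x).Reg w → (arm2 x).Reg w →
  ContinuousAt (NN x) w

/-- indices of the parameters which do not depend on `b₂`, `b₃`, `c₁` -/
def SZ : Set (Fin 13) := {0, 1, 5, 6, 7, 8}

def S_nz : Prop := S_armr → S_pair → S_prod → S_gen → S_cont →
  ∀ (x : Fin 13 → ℝ) (K : Fld x) (z : ℂ), z ∈ K.K SZ → (arm3 x).Reg z → (arm2 x).Reg z →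
    NN x z ≠ 0

/-! ## Symmetries -/

def S_conj : Prop := ∀ (x : Fin 13 → ℝ) (w : ℝ), (starRingEnd ℂ) (NN x w) = NN x w

def S_inv : Prop := ∀ (x : Fin 13 → ℝ) (w : ℂ), x 0 ≠ 0 → x 1 ≠ 0 → (arm3 x).Reg w →
  (arm2 x).Reg w → NN x (x 1 / (x 0 * w)) = NN x w

def S_sq : Prop := ∀ (x : Fin 13 → ℝ) (w : ℝ), x 0 ≠ 0 → x 1 ≠ 0 → x 0 * w ^ 2 = x 1 →
  (arm3 x).Reg w → (arm2 x).Reg w → ∃ H : ℝ, NN x w = (H : ℂ) ^ 2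

/-- the involution maps poles to poles of the same order -/
def S_img : Prop := S_inv → ∀ (x : Fin 13 → ℝ) (z : ℂ) (n : ℕ), x 0 ≠ 0 → x 1 ≠ 0 → z ≠ 0 →
  (∀ᶠ w in 𝓝[≠] z, (arm3 x).Reg w ∧ (arm2 x).Reg w) → Ord x z n → Ord x (x 1 / (x 0 * z)) n

/-! ## The special points -/

/-- the real special points of the two arms -/
noncomputable def w3 (x : Fin 13 → ℝ) : ℝ := (x 7 - x 1) / (x 0 - x 5)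
noncomputable def w2 (x : Fin 13 → ℝ) : ℝ := (x 8 - x 1) / (x 0 - x 6)

/-- the seven special points -/
noncomputable def zz (x : Fin 13 → ℝ) : Fin 7 → ℝ :=
  ![0, -1, -x 1 / x 0, w3 x, x 1 / (x 0 * w3 x), w2 x, x 1 / (x 0 * w2 x)]

def S_inj : Prop := ∀ (x : Fin 13 → ℝ), Fld x →
  x 0 ≠ 0 ∧ x 1 ≠ 0 ∧ w3 x ≠ 0 ∧ w2 x ≠ 0 ∧ x 0 ≠ x 5 ∧ x 0 ≠ x 6 ∧
  Function.Injective (zz x) ∧ ∀ i, x 0 * zz x i ^ 2 ≠ x 1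

def S_reg : Prop := ∀ (x : Fin 13 → ℝ), Fld x →
  (∀ w : ℂ, (∀ i, w ≠ zz x i) → (arm3 x).Reg w ∧ (arm2 x).Reg w) ∧
  (arm2 x).Reg (arm3 x).ws ∧ (arm3 x).Reg (arm2 x).ws

/-- a zero of the norm gives a pair of positions with a common position of `c₁` -/
def S_end : Prop := S_common → ∀ (x : Fin 13 → ℝ), Fld x → ∀ w : ℂ, (arm3 x).Reg w →
  (arm2 x).Reg w → NN x w = 0 → ∃ p p2 p3 ω2 ω3 : ℂ, p ≠ 0 ∧ p2 ≠ 0 ∧ p3 ≠ 0 ∧ ω2 ≠ 0 ∧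
  ω3 ≠ 0 ∧ (arm3 x).RQ w p2 ∧ (arm3 x).RI p2 ω3 ∧ (arm2 x).RQ w p3 ∧ (arm2 x).RI p3 ω2 ∧
  (((x 0 : ℂ) + x 2 / ω2) * p ^ 2 -
    ((1 + ω2) * ((x 0 : ℂ) + x 2 / ω2) + ((x 4 : ℂ) - x 9)) * p + (1 + ω2) * x 4 = 0) ∧
  (((x 0 : ℂ) + x 3 / ω3) * p ^ 2 -
    ((1 + ω3) * ((x 0 : ℂ) + x 3 / ω3) + ((x 4 : ℂ) - x 11)) * p + (1 + ω3) * x 4 = 0)

/-- assembly -/
def S_fin : Prop := S_field → S_real → S_sign →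
  (∀ x : Fin 13 → ℝ, Fld x → Ord x 0 18) → (∀ x : Fin 13 → ℝ, Fld x → Ord x (-1) 11) →
  (∀ x : Fin 13 → ℝ, Fld x → (arm2 x).Reg (arm3 x).ws → Ord x (arm3 x).ws 8) →
  (∀ x : Fin 13 → ℝ, Fld x → (arm3 x).Reg (arm2 x).ws → Ord x (arm2 x).ws 8) →
  (∀ (x : Fin 13 → ℝ) (K : Fld x) (z : ℂ), z ∈ K.K SZ → (arm3 x).Reg z → (arm2 x).Reg z →
    NN x z ≠ 0) →
  S_cont → S_conj → S_inv → S_sq → S_img → S_inj → S_reg → S_end → S_common → S_core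

end Pool.Agent.N124.CU
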